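import Pool.Agent.Helper447.AT.M

set_option autoImplicit false
open MeasureTheory Topology Pool.Agent.AT
open Matrix hiding J

namespace Pool.Agent.Helper447.ATM

theorem rinv_mp {t : G} (h : RInv t) :
    MeasurePreserving (MeasurableEquiv.mulRight t) m m :=
  ⟨(MeasurableEquiv.mulRight t).measurable, h⟩

theorem m_pre {t : G} (h : RInv t) (A : Set G) : m ((fun g => g * t) ⁻¹' A) = m A :=
  (rinv_mp h).measure_preimage_equiv A

theorem bb_mem (w : W) : bb w ∈ Inv := by
  have h : w ∈ Subgroup.closure (Set.range cs.simple) := by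
    rw [cs.subgroup_closure_range_simple]; trivial
  induction h using Subgroup.closure_induction with
  | mem x hx =>
    obtain ⟨s, rfl⟩ := hx
    change bb (gen s) ∈ Inv
    rw [bb_gen]; exact sq_mem (refl_sq s)
  | one => rw [map_one]; exact Inv.one_mem
  | mul x y _ _ hx hy => rw [map_mul]; exact Inv.mul_mem hx hy
  | inv x _ hx => rw [map_inv]; exact Inv.inv_mem hx

theorem glue [Countable W] (h3 : StT3) (F : Set G) (mF : MeasurableSet F)
    (hF : ∀ g : G, ∃! w : W, bb w * g⁻¹ ∈ F) :
    (Measure.haar : Measure G) {g | g⁻¹ ∈ F} ≠ 0 ∧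
    (Measure.haar : Measure G) {g | g⁻¹ ∈ F} ≠ ⊤ := by
  change m {g | g⁻¹ ∈ F} ≠ 0 ∧ m {g | g⁻¹ ∈ F} ≠ ⊤
  set A : Set G := {g | g⁻¹ ∈ F} with hA
  have mA : MeasurableSet A := measurable_inv mF
  have hb : ∀ w : W, RInv (bb w) := fun w => RInv.of_mem (bb_mem w)
  constructor
  · intro h0
    have h1 : m (⋃ w : W, (fun g => g * (bb w)⁻¹) ⁻¹' A) = 0 := by
      rw [measure_iUnion_null_iff]
      intro w
      rw [m_pre (hb w).inv]; exact h0
    have h2 : (⋃ w : W, (fun g => g * (bb w)⁻¹) ⁻¹' A) = Set.univ := by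
      ext g
      simp only [Set.mem_iUnion, Set.mem_univ, iff_true]
      obtain ⟨w, hw, _⟩ := hF g
      refine ⟨w, ?_⟩
      simpa [hA, Set.mem_preimage] using hw
    rw [h2] at h1
    have : m Set.univ ≠ 0 := by
      have : (m : Measure G) ≠ 0 := by
        have := (isOpen_univ : IsOpen (Set.univ : Set G)).measure_pos m ⟨1, trivial⟩
        intro h; rw [h] at this; simp at this
      simpa using this
    exact this h1
  · set U : Set G := {g : G | (g⁻¹).mat *ᵥ e0 ∈ Cusp} with hU
    have hUfin : m U < ⊤ := M2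
    have hcov : A ⊆ ⋃ w : W, (A ∩ (fun g => g * (bb w)⁻¹) ⁻¹' U) := by
      intro g hg
      simp only [Set.mem_iUnion]
      have hx : (g⁻¹).mat *ᵥ e0 ∈ H3 := by
        rw [u_e0]
        refine ⟨?_, u_pos g⟩
        have := u_hyp g
        unfold form
        nlinarith
      obtain ⟨w, hw⟩ := h3 _ hx
      refine ⟨w, hg, ?_⟩
      simp only [Set.mem_preimage, hU, Set.mem_ofPred_eq]
      rw [_root_.mul_inv_rev, inv_inv, G.mat_mul, ← Matrix.mulVec_mulVec]
      exact hw
    have hstep : ∀ w : W, m (A ∩ (fun g => g * (bb w)⁻¹) ⁻¹' U) =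
        m.restrict U ((fun g => g * bb w) ⁻¹' A) := by
      intro w
      rw [Measure.restrict_apply (measurable_mul_const (bb w) mA), ← m_pre (hb w)]
      congr 1
      ext g
      simp [Set.mem_preimage]
    have hdisj : Pairwise (fun w w' : W => Disjoint ((fun g => g * bb w) ⁻¹' A)
        ((fun g => g * bb w') ⁻¹' A)) := by
      intro w w' hne
      rw [Set.disjoint_left]
      intro g h1 h2
      apply hne
      obtain ⟨v, _, hv⟩ := hF g
      have e1 := hv w⁻¹ (by simpa [hA, Set.mem_preimage] using h1)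
      have e2 := hv w'⁻¹ (by simpa [hA, Set.mem_preimage] using h2)
      exact inv_injective (e1.trans e2.symm)
    have : m A ≤ m U := by
      calc m A ≤ m (⋃ w : W, (A ∩ (fun g => g * (bb w)⁻¹) ⁻¹' U)) := measure_mono hcov
        _ ≤ ∑' w : W, m (A ∩ (fun g => g * (bb w)⁻¹) ⁻¹' U) := measure_iUnion_le _
        _ = ∑' w : W, m.restrict U ((fun g => g * bb w) ⁻¹' A) := by
            exact tsum_congr hstep
        _ = m.restrict U (⋃ w : W, (fun g => g * bb w) ⁻¹' A) := by
            rw [measure_iUnion hdisj (fun w => measurable_mul_const (bb w) mA)]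
        _ ≤ m.restrict U Set.univ := measure_mono (Set.subset_univ _)
        _ = m U := by rw [Measure.restrict_apply_univ]
    exact (lt_of_le_of_lt this hUfin).ne

end Pool.Agent.Helper447.ATM
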